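import Mathlib

/-! Absolute continuity: comparison and gluing lemmas. -/

set_option autoImplicit false

open MeasureTheory Set Filter Topology

namespace Pool.Agent.R731.EO

/-- Comparison: if the increments of `f` are bounded by sums of increments of absolutely
continuous functions, then `f` is absolutely continuous. -/
theorem ac_of_dist_le {X : Type*} [PseudoMetricSpace X] {ι : Type*} (s : Finset ι)
    {Y : ι → Type*} [∀ i, PseudoMetricSpace (Y i)]
    {f : ℝ → X} {g : ∀ i, ℝ → Y i} {K : ι → ℝ} {a b : ℝ}
    (hg : ∀ i ∈ s, AbsolutelyContinuousOnInterval (g i) a b)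
    (h : ∀ x ∈ uIcc a b, ∀ y ∈ uIcc a b,
      dist (f x) (f y) ≤ ∑ i ∈ s, K i * dist (g i x) (g i y)) :
    AbsolutelyContinuousOnInterval f a b := by
  have h1 : Tendsto (fun E : ℕ × (ℕ → ℝ × ℝ) => ∑ i ∈ s, K i *
      ∑ j ∈ Finset.range E.1, dist (g i (E.2 j).1) (g i (E.2 j).2))
      (AbsolutelyContinuousOnInterval.totalLengthFilter ⊓
        𝓟 (AbsolutelyContinuousOnInterval.disjWithin a b)) (𝓝 0) := by
    have : (0 : ℝ) = ∑ i ∈ s, K i * 0 := by simp
    rw [this]
    exact tendsto_finsetSum s fun i hi => Filter.Tendsto.const_mul (K i) (hg i hi)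
  unfold AbsolutelyContinuousOnInterval
  refine squeeze_zero' (Eventually.of_forall fun E => Finset.sum_nonneg fun i _ => dist_nonneg)
    ?_ h1
  rw [eventually_inf_principal]
  filter_upwards with E hE
  have h2 : ∀ j ∈ Finset.range E.1, dist (f (E.2 j).1) (f (E.2 j).2) ≤
      ∑ i ∈ s, K i * dist (g i (E.2 j).1) (g i (E.2 j).2) :=
    fun j hj => h _ (hE.1 j hj).1 _ (hE.1 j hj).2
  refine (Finset.sum_le_sum h2).trans (le_of_eq ?_)
  rw [Finset.sum_comm]
  refine Finset.sum_congr rfl fun i _ => ?_
  rw [Finset.mul_sum]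

theorem ac_comp_lipschitz {X Y : Type*} [PseudoMetricSpace X] [PseudoMetricSpace Y]
    {f : ℝ → X} {φ : X → Y} {K : ℝ} {a b : ℝ} (hf : AbsolutelyContinuousOnInterval f a b)
    (hφ : ∀ x y, dist (φ x) (φ y) ≤ K * dist x y) :
    AbsolutelyContinuousOnInterval (fun t => φ (f t)) a b := by
  refine ac_of_dist_le (ι := Unit) (s := {()}) (g := fun _ => f) (K := fun _ => K)
    (fun _ _ => hf) ?_
  intro x _ y _
  simpa using hφ (f x) (f y)

theorem ac_congr {X : Type*} [PseudoMetricSpace X] {f g : ℝ → X} {a b : ℝ}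
    (hf : AbsolutelyContinuousOnInterval f a b) (h : ∀ x ∈ uIcc a b, g x = f x) :
    AbsolutelyContinuousOnInterval g a b := by
  refine ac_of_dist_le (ι := Unit) (s := {()}) (g := fun _ => f) (K := fun _ => 1)
    (fun _ _ => hf) ?_
  intro x hx y hy
  simp [h x hx, h y hy]

/-- The concatenation of two curves. -/
noncomputable def glue {X : Type*} (T : ℝ) (f g : ℝ → X) : ℝ → X :=
  fun t => if t ≤ T then f t else g (t - T)

theorem ac_glue {T S : ℝ} (hT : 0 ≤ T) (hS : 0 ≤ S) {f g : ℝ → ℝ}
    (hf : AbsolutelyContinuousOnInterval f 0 T) (hg : AbsolutelyContinuousOnInterval g 0 S)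
    (h : f T = g 0) : AbsolutelyContinuousOnInterval (glue T f g) 0 (T + S) := by
  have if1 : IntervalIntegrable (deriv f) volume 0 T := hf.intervalIntegrable_deriv
  have ig1 : IntervalIntegrable (deriv g) volume 0 S := hg.intervalIntegrable_deriv
  set φ : ℝ → ℝ := fun t => if t ≤ T then deriv f t else deriv g (t - T) with hφ
  have i1 : IntervalIntegrable φ volume 0 T := by
    refine if1.congr_ae ?_
    rw [Filter.EventuallyEq, ae_restrict_iff' measurableSet_uIoc]
    filter_upwards with t ht
    rw [uIoc_of_le hT] at ht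
    simp [hφ, ht.2]
  have i2 : IntervalIntegrable φ volume T (T + S) := by
    have h2 : IntervalIntegrable (fun t => deriv g (t - T)) volume T (T + S) := by
      have := ig1.comp_sub_right T
      simpa [add_comm] using this
    refine h2.congr_ae ?_
    rw [Filter.EventuallyEq, ae_restrict_iff' measurableSet_uIoc]
    filter_upwards with t ht
    rw [uIoc_of_le (by linarith)] at ht
    simp [hφ, not_le.2 ht.1]
  have i3 : IntervalIntegrable φ volume 0 (T + S) := i1.trans i2
  have key : ∀ t ∈ uIcc 0 (T + S), glue T f g t = f 0 + ∫ s in (0 : ℝ)..t, φ s := by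
    intro t ht
    rw [uIcc_of_le (by linarith)] at ht
    by_cases hc : t ≤ T
    · have e1 : ∫ s in (0 : ℝ)..t, φ s = ∫ s in (0 : ℝ)..t, deriv f s := by
        refine intervalIntegral.integral_congr_ae ?_
        filter_upwards with s hs
        rw [uIoc_of_le ht.1] at hs
        simp [hφ, hs.2.trans hc]
      rw [e1, AbsolutelyContinuousOnInterval.integral_deriv_eq_sub
        (hf.mono (by rw [uIcc_of_le ht.1, uIcc_of_le hT]; exact Icc_subset_Icc le_rfl hc))]
      simp [glue, hc]
    · have hc' : T < t := not_le.1 hc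
      have ht0 : 0 ≤ t - T := by linarith
      have e1 : ∫ s in (0 : ℝ)..T, φ s = f T - f 0 := by
        rw [← hf.integral_deriv_eq_sub]
        refine intervalIntegral.integral_congr_ae ?_
        filter_upwards with s hs
        rw [uIoc_of_le hT] at hs
        simp [hφ, hs.2]
      have e2 : ∫ s in T..t, φ s = g (t - T) - g 0 := by
        have e3 : ∫ s in T..t, φ s = ∫ s in T..t, deriv g (s - T) := by
          refine intervalIntegral.integral_congr_ae ?_
          filter_upwards with s hs
          rw [uIoc_of_le hc'.le] at hs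
          simp [hφ, not_le.2 hs.1]
        rw [e3, intervalIntegral.integral_comp_sub_right (fun s => deriv g s), sub_self]
        exact AbsolutelyContinuousOnInterval.integral_deriv_eq_sub
          (hg.mono (by rw [uIcc_of_le ht0, uIcc_of_le hS]; exact Icc_subset_Icc le_rfl (by linarith [ht.2])))
      rw [← intervalIntegral.integral_add_adjacent_intervals i1
        (i2.mono_set (by rw [uIcc_of_le hc'.le, uIcc_of_le (by linarith)]; exact Icc_subset_Icc le_rfl ht.2)),
        e1, e2]
      simp [glue, hc, h]
  have := (i3.absolutelyContinuousOnInterval_intervalIntegral (c := 0) (by simp))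
  have h4 : AbsolutelyContinuousOnInterval (fun x => f 0 + ∫ s in (0 : ℝ)..x, φ s) 0 (T + S) := by
    refine ac_of_dist_le (ι := Unit) (s := {()}) (g := fun _ => fun x => ∫ s in (0 : ℝ)..x, φ s)
      (K := fun _ => 1) (fun _ _ => this) ?_
    intro x _ y _
    simp
  exact ac_congr h4 key

end Pool.Agent.R731.EO
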