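import Pool.Agent.R731.EO.Defs
import Pool.Agent.R731.EO.AC

/-! Horizontal curves in the jet space: conserved coordinates, concatenation, elementary moves. -/

set_option autoImplicit false

open MeasureTheory Set Filter Topology

namespace Pool.Agent.R731.EO

variable {k : ℕ}

/-- `U q i = u_{k-i}` -/
def U (q : Jet k) (i : ℕ) : ℝ := if h : i ≤ k then q.2 ⟨k - i, by omega⟩ else 0

theorem U_of_le (q : Jet k) {i : ℕ} (h : i ≤ k) : U q i = q.2 ⟨k - i, by omega⟩ := dif_pos h

theorem U_zero (q : Jet k) : U q 0 = q.2 (Fin.last k) := by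
  rw [U_of_le q (Nat.zero_le k)]; rfl

theorem jet_ext {p q : Jet k} (h1 : p.1 = q.1) (h2 : ∀ i ≤ k, U p i = U q i) : p = q := by
  refine Prod.ext h1 (funext fun j => ?_)
  have := h2 (k - j) (by omega)
  rw [U_of_le _ (by omega), U_of_le _ (by omega)] at this
  have e : (⟨k - (k - (j : ℕ)), by omega⟩ : Fin (k + 1)) = j := by
    ext; simp; omega
  rwa [e] at this

theorem frame_last (q : Jet k) (a b : ℝ) :
    (a • X₁ q + b • X₂ k).2 (Fin.last k) = b := by
  simp [X₁, X₂]

theorem frame_fst (q : Jet k) (a b : ℝ) : (a • X₁ q + b • X₂ k).1 = a := by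
  simp [X₁, X₂]

theorem frame_lt (q : Jet k) (a b : ℝ) {j : ℕ} (hj : j < k) :
    (a • X₁ q + b • X₂ k).2 ⟨j, by omega⟩ = a * q.2 ⟨j + 1, by omega⟩ := by
  have e2 : (⟨j, by omega⟩ : Fin (k + 1)) ≠ Fin.last k := by
    intro h; have := congrArg Fin.val h; simp at this; omega
  simp only [X₁, X₂, Prod.smul_snd, Prod.snd_add, Pi.add_apply, Pi.smul_apply, smul_eq_mul, hj,
    dite_true, Pi.single_eq_of_ne e2, mul_zero, add_zero]

/-- the velocity of a horizontal curve in components -/
theorem comp_deriv {c : ℝ → Jet k} {a b t : ℝ} (h : HasDerivAt c (a • X₁ (c t) + b • X₂ k) t) :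
    HasDerivAt (fun s => (c s).1) a t ∧ HasDerivAt (fun s => U (c s) 0) b t ∧
      ∀ i, i + 1 ≤ k → HasDerivAt (fun s => U (c s) (i + 1)) (a * U (c t) i) t := by
  have h1 : HasDerivAt (fun s => (c s).1) ((a • X₁ (c t) + b • X₂ k).1) t :=
    (hasFDerivAt_fst (𝕜 := ℝ) (p := c t)).comp_hasDerivAt t h
  have h2 : HasDerivAt (fun s => (c s).2) ((a • X₁ (c t) + b • X₂ k).2) t :=
    (hasFDerivAt_snd (𝕜 := ℝ) (p := c t)).comp_hasDerivAt t h
  have h3 := hasDerivAt_pi.1 h2
  refine ⟨?_, ?_, ?_⟩
  · rwa [frame_fst] at h1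
  · have := h3 (Fin.last k)
    rw [frame_last] at this
    simp_rw [U_zero]
    exact this
  · intro i hi
    have := h3 ⟨k - (i + 1), by omega⟩
    rw [frame_lt _ _ _ (by omega : k - (i + 1) < k)] at this
    simp_rw [U_of_le _ hi]
    rw [U_of_le _ (by omega : i ≤ k)]
    have e : (⟨k - (i + 1) + 1, by omega⟩ : Fin (k + 1)) = ⟨k - i, by omega⟩ := by
      ext; simp; omega
    rw [e] at this
    exact this

/-- conversely -/
theorem of_comp_deriv {c : ℝ → Jet k} {a b t : ℝ} (h1 : HasDerivAt (fun s => (c s).1) a t)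
    (h2 : HasDerivAt (fun s => U (c s) 0) b t)
    (h3 : ∀ i, i + 1 ≤ k → HasDerivAt (fun s => U (c s) (i + 1)) (a * U (c t) i) t) :
    HasDerivAt c (a • X₁ (c t) + b • X₂ k) t := by
  have h4 : HasDerivAt (fun s => (c s).2) ((a • X₁ (c t) + b • X₂ k).2) t := by
    refine hasDerivAt_pi.2 fun j => ?_
    by_cases hj : (j : ℕ) < k
    · have := h3 (k - j - 1) (by omega)
      simp_rw [U_of_le _ (by omega : k - (j : ℕ) - 1 + 1 ≤ k)] at this
      rw [U_of_le _ (by omega : k - (j : ℕ) - 1 ≤ k)] at this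
      have e : (⟨k - (k - (j : ℕ) - 1 + 1), by omega⟩ : Fin (k + 1)) = j := by
        ext; simp; omega
      have e' : (⟨k - (k - (j : ℕ) - 1), by omega⟩ : Fin (k + 1)) = ⟨j + 1, by omega⟩ := by
        ext; simp; omega
      rw [e'] at this
      simp_rw [e] at this
      have e3 : (a • X₁ (c t) + b • X₂ k).2 j = a * (c t).2 ⟨j + 1, by omega⟩ :=
        frame_lt (c t) a b hj
      rw [e3]
      exact this
    · have e : j = Fin.last k := by
        ext; simp; omega
      subst e
      simp_rw [U_zero] at h2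
      rw [frame_last]
      exact h2
  have h5 := h1.prodMk h4
  have e : (a, (a • X₁ (c t) + b • X₂ k).2) = a • X₁ (c t) + b • X₂ k :=
    Prod.ext (frame_fst _ _ _).symm rfl
  rw [e] at h5
  exact h5

/-- conserved quantities of the horizontal flow of `X₁`: `Th x U j m = ∑ᵢ (-1)ⁱ x^{j-i}/(j-i)! U_{m+i}` -/
noncomputable def Th (x : ℝ) (V : ℕ → ℝ) : ℕ → ℕ → ℝ
  | 0, m => V m
  | (j + 1), m => x ^ (j + 1) / (j + 1).factorial * V m - Th x V j (m + 1)

/-- the quantity `Θ_j` -/
noncomputable def Theta (q : Jet k) (j : ℕ) : ℝ := Th q.1 (U q) j 0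

theorem Th_deriv {c : ℝ → Jet k} {a b t : ℝ} (h : HasDerivAt c (a • X₁ (c t) + b • X₂ k) t)
    (j : ℕ) : ∀ m, j + m ≤ k → HasDerivAt (fun s => Th (c s).1 (U (c s)) j m)
      ((c t).1 ^ j / j.factorial * (if m = 0 then b else a * U (c t) (m - 1))) t := by
  obtain ⟨h1, h2, h3⟩ := comp_deriv h
  have hU : ∀ m ≤ k, HasDerivAt (fun s => U (c s) m) (if m = 0 then b else a * U (c t) (m - 1)) t := by
    intro m hm
    rcases m with _ | m
    · simpa using h2
    · simpa using h3 m hm
  induction j with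
  | zero =>
    intro m hm
    simpa [Th] using hU m (by omega)
  | succ j ih =>
    intro m hm
    have i1 := ih (m + 1) (by omega)
    have i2 := hU m (by omega)
    have i3 : HasDerivAt (fun s => (c s).1 ^ (j + 1) / (j + 1).factorial)
        ((c t).1 ^ j / j.factorial * a) t := by
      have := (h1.pow (j + 1)).div_const ((j + 1).factorial : ℝ)
      refine this.congr_deriv ?_
      rw [Nat.factorial_succ]
      push_cast
      have : (j.factorial : ℝ) ≠ 0 := by positivity
      have h2 : (j : ℝ) + 1 ≠ 0 := by positivity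
      field_simp
      try rfl
    have i4 := (i3.mul i2).sub i1
    simp only [Nat.add_eq_zero_iff, one_ne_zero, and_false, if_false, Nat.add_sub_cancel] at i4
    refine i4.congr_deriv ?_
    ring

theorem Theta_deriv {c : ℝ → Jet k} {a b t : ℝ} (h : HasDerivAt c (a • X₁ (c t) + b • X₂ k) t)
    {j : ℕ} (hj : j ≤ k) :
    HasDerivAt (fun s => Theta (c s) j) ((c t).1 ^ j / j.factorial * b) t := by
  simpa [Theta] using Th_deriv h j 0 (by omega)

theorem Th_congr {x : ℝ} {V W : ℕ → ℝ} (h : ∀ j ≤ k, Th x V j 0 = Th x W j 0) :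
    ∀ i ≤ k, ∀ j, i + j ≤ k → Th x V j i = Th x W j i := by
  intro i
  induction i with
  | zero => intro _ j hj; exact h j (by omega)
  | succ i ih =>
    intro hi j hj
    have e1 := ih (by omega) (j + 1) (by omega)
    have e0 := ih (by omega) 0 (by omega)
    simp only [Th] at e1 e0
    rw [e0] at e1
    linarith

/-- `x` and the `Θ_j` are coordinates -/
theorem eq_of_Theta {p q : Jet k} (h1 : p.1 = q.1) (h2 : ∀ j ≤ k, Theta p j = Theta q j) :
    p = q := by
  refine jet_ext h1 fun i hi => ?_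
  have := Th_congr (x := p.1) (V := U p) (W := U q) (k := k)
    (fun j hj => by have := h2 j hj; simp only [Theta, ← h1] at this; exact this) i hi 0 (by omega)
  simpa [Th] using this

/-! ### horizontal curves -/

theorem IsHorizontal.ac_fst {T : ℝ} {c : ℝ → Jet k} (h : IsHorizontal T c) :
    AbsolutelyContinuousOnInterval (fun t => (c t).1) 0 T :=
  ac_comp_lipschitz (φ := fun q : Jet k => q.1) (K := 1) h.1 fun x y => by
    rw [one_mul]; exact le_max_left _ _

theorem IsHorizontal.ac_snd {T : ℝ} {c : ℝ → Jet k} (h : IsHorizontal T c) (j : Fin (k + 1)) :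
    AbsolutelyContinuousOnInterval (fun t => (c t).2 j) 0 T :=
  ac_comp_lipschitz (φ := fun q : Jet k => q.2 j) (K := 1) h.1 fun x y => by
    rw [one_mul]; exact (dist_le_pi_dist x.2 y.2 j).trans (le_max_right _ _)

theorem IsHorizontal.ac_U {T : ℝ} {c : ℝ → Jet k} (h : IsHorizontal T c) {i : ℕ} (hi : i ≤ k) :
    AbsolutelyContinuousOnInterval (fun t => U (c t) i) 0 T := by
  simp_rw [U_of_le _ hi]
  exact h.ac_snd _

theorem ac_of_comps {a b : ℝ} {c : ℝ → Jet k}
    (h1 : AbsolutelyContinuousOnInterval (fun t => (c t).1) a b)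
    (h2 : ∀ j, AbsolutelyContinuousOnInterval (fun t => (c t).2 j) a b) :
    AbsolutelyContinuousOnInterval c a b := by
  refine ac_of_dist_le (ι := Option (Fin (k + 1))) (s := Finset.univ)
    (Y := fun _ => ℝ)
    (g := fun o => match o with | none => fun t => (c t).1 | some j => fun t => (c t).2 j)
    (K := fun _ => 1) ?_ ?_
  · rintro (_ | j) _
    · exact h1
    · exact h2 j
  · intro x _ y _
    rw [Fintype.sum_option]
    simp only [one_mul]
    rw [Prod.dist_eq]
    have e1 : dist (c x).2 (c y).2 ≤ ∑ j, dist ((c x).2 j) ((c y).2 j) := by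
      refine (dist_pi_le_iff (Finset.sum_nonneg fun _ _ => dist_nonneg)).2 fun j => ?_
      exact Finset.single_le_sum (f := fun j => dist ((c x).2 j) ((c y).2 j))
        (fun _ _ => dist_nonneg) (Finset.mem_univ j)
    refine max_le ?_ ?_
    · have : 0 ≤ ∑ j, dist ((c x).2 j) ((c y).2 j) := Finset.sum_nonneg fun _ _ => dist_nonneg
      linarith
    · have : 0 ≤ dist (c x).1 (c y).1 := dist_nonneg
      linarith

theorem hnorm_nonneg (v : Jet k) : 0 ≤ hnorm v := Real.sqrt_nonneg _

theorem length_nonneg {T : ℝ} (hT : 0 ≤ T) (c : ℝ → Jet k) : 0 ≤ length T c :=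
  intervalIntegral.integral_nonneg hT fun _ _ => hnorm_nonneg _

theorem hnorm_frame (q : Jet k) (a b : ℝ) : hnorm (a • X₁ q + b • X₂ k) = √(a ^ 2 + b ^ 2) := by
  simp [hnorm, X₁, X₂]

theorem IsHorizontal.speed_ae {T : ℝ} {c : ℝ → Jet k} (h : IsHorizontal T c) :
    ∀ᵐ t : ℝ, t ∈ Icc 0 T → hnorm (deriv c t) =
      √(deriv (fun s => (c s).1) t ^ 2 + deriv (fun s => U (c s) 0) t ^ 2) := by
  filter_upwards [h.2] with t ht hmem
  obtain ⟨a, b, hab⟩ := ht hmem
  obtain ⟨h1, h2, -⟩ := comp_deriv hab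
  rw [hab.deriv, h1.deriv, h2.deriv, hnorm_frame]

theorem IsHorizontal.integrable {T : ℝ} (hT : 0 ≤ T) {c : ℝ → Jet k} (h : IsHorizontal T c) :
    IntervalIntegrable (fun t => hnorm (deriv c t)) volume 0 T := by
  have i1 := h.ac_fst.intervalIntegrable_deriv
  have i2 := (h.ac_U (Nat.zero_le k)).intervalIntegrable_deriv
  have i3 : IntervalIntegrable (fun t => √(deriv (fun s => (c s).1) t ^ 2 +
      deriv (fun s => U (c s) 0) t ^ 2)) volume 0 T := by
    refine (i1.abs.add i2.abs).mono_fun ?_ ?_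
    · have m1 := i1.aestronglyMeasurable_restrict_uIoc
      have m2 := i2.aestronglyMeasurable_restrict_uIoc
      exact (Real.continuous_sqrt.comp_aestronglyMeasurable ((m1.pow 2).add (m2.pow 2)))
    · refine Eventually.of_forall fun t => ?_
      set u := deriv (fun s => (c s).1) t
      set v := deriv (fun s => U (c s) 0) t
      simp only [Real.norm_eq_abs, Pi.add_apply]
      rw [abs_of_nonneg (Real.sqrt_nonneg _), abs_of_nonneg (by positivity)]
      refine Real.sqrt_le_iff.2 ⟨by positivity, ?_⟩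
      have := abs_nonneg u
      have := abs_nonneg v
      nlinarith [sq_abs u, sq_abs v, mul_nonneg (abs_nonneg u) (abs_nonneg v)]
  refine i3.congr_ae ?_
  rw [Filter.EventuallyEq, ae_restrict_iff' measurableSet_uIoc]
  filter_upwards [h.speed_ae] with t ht hmem
  rw [uIoc_of_le hT] at hmem
  exact (ht ⟨hmem.1.le, hmem.2⟩).symm

/-- there is a horizontal curve of length `L` from `p` to `q` -/
def Reach (p q : Jet k) (L : ℝ) : Prop :=
  ∃ (T : ℝ) (c : ℝ → Jet k), 0 ≤ T ∧ IsHorizontal T c ∧ c 0 = p ∧ c T = q ∧ L = length T c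

theorem Reach.ccDist_le {p q : Jet k} {L : ℝ} (h : Reach p q L) : ccDist p q ≤ L := by
  refine csInf_le ⟨0, ?_⟩ h
  rintro _ ⟨T, c, hT, -, -, -, rfl⟩
  exact length_nonneg hT c

theorem Reach.trans {p q r : Jet k} {L M : ℝ} (h1 : Reach p q L) (h2 : Reach q r M) :
    Reach p r (L + M) := by
  obtain ⟨T, c, hT, hc, rfl, hq, rfl⟩ := h1
  obtain ⟨S, d, hS, hd, hd0, rfl, rfl⟩ := h2
  have hcd : c T = d 0 := by rw [hq, hd0]
  -- the derivative on the two parts
  have hl : ∀ t, t < T → ∀ v, HasDerivAt c v t → HasDerivAt (glue T c d) v t := by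
    intro t ht v hv
    refine hv.congr_of_eventuallyEq ?_
    filter_upwards [Iio_mem_nhds ht] with s hs
    simp [glue, (le_of_lt (mem_Iio.1 hs) : s ≤ T)]
  have hr : ∀ t, T < t → ∀ v, HasDerivAt d v (t - T) → HasDerivAt (glue T c d) v t := by
    intro t ht v hv
    have hv' : HasDerivAt (fun s => d (s - T)) v t := by
      have := hv.comp_sub_const t T
      exact this
    refine hv'.congr_of_eventuallyEq ?_
    filter_upwards [Ioi_mem_nhds ht] with s hs
    simp [glue, not_le.2 (mem_Ioi.1 hs)]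
  have hdl : ∀ t, t < T → deriv (glue T c d) t = deriv c t := by
    intro t ht
    refine Filter.EventuallyEq.deriv_eq ?_
    filter_upwards [Iio_mem_nhds ht] with s hs
    simp [glue, (le_of_lt (mem_Iio.1 hs) : s ≤ T)]
  have hdr : ∀ t, T < t → deriv (glue T c d) t = deriv d (t - T) := by
    intro t ht
    have : glue T c d =ᶠ[𝓝 t] fun s => d (s - T) := by
      filter_upwards [Ioi_mem_nhds ht] with s hs
      simp [glue, not_le.2 (mem_Ioi.1 hs)]
    rw [this.deriv_eq]
    exact deriv_comp_sub_const d T t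
  have hne : ∀ᵐ t : ℝ, t ≠ T := by
    simp [ae_iff, measure_singleton]
  have hshift : ∀ᵐ t : ℝ, t - T ∈ Icc 0 S → ∃ a b : ℝ,
      HasDerivAt d (a • X₁ (d (t - T)) + b • X₂ k) (t - T) :=
    (measurePreserving_sub_right volume T).quasiMeasurePreserving.ae hd.2
  refine ⟨T + S, glue T c d, by linarith, ⟨?_, ?_⟩, ?_, ?_, ?_⟩
  · refine ac_of_comps ?_ fun j => ?_
    · have := ac_glue hT hS hc.ac_fst hd.ac_fst (by rw [hcd])
      refine ac_congr this fun x _ => ?_
      unfold glue; split_ifs <;> rfl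
    · have := ac_glue hT hS (hc.ac_snd j) (hd.ac_snd j) (by rw [hcd])
      refine ac_congr this fun x _ => ?_
      unfold glue; split_ifs <;> rfl
  · filter_upwards [hc.2, hshift, hne] with t h1 h2 h3 hmem
    rcases lt_or_gt_of_ne h3 with h | h
    · obtain ⟨a, b, hab⟩ := h1 ⟨hmem.1, h.le⟩
      refine ⟨a, b, ?_⟩
      have e : glue T c d t = c t := by simp [glue, h.le]
      rw [e]
      exact hl t h _ hab
    · obtain ⟨a, b, hab⟩ := h2 ⟨by linarith, by linarith [hmem.2]⟩
      refine ⟨a, b, ?_⟩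
      have e : glue T c d t = d (t - T) := by simp [glue, not_le.2 h]
      rw [e]
      exact hr t h _ hab
  · simp [glue, hT]
  · by_cases hS0 : S = 0
    · subst hS0; simp [glue, hcd]
    · have : 0 < S := lt_of_le_of_ne hS (Ne.symm hS0)
      simp [glue, this]
  · have i1 := hc.integrable hT
    have i2 := hd.integrable hS
    have j1 : IntervalIntegrable (fun t => hnorm (deriv (glue T c d) t)) volume 0 T := by
      refine i1.congr_ae ?_
      rw [Filter.EventuallyEq, ae_restrict_iff' measurableSet_uIoc]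
      filter_upwards [hne] with t ht hmem
      rw [uIoc_of_le hT] at hmem
      rw [hdl t (lt_of_le_of_ne hmem.2 ht)]
    have j2 : IntervalIntegrable (fun t => hnorm (deriv (glue T c d) t)) volume T (T + S) := by
      have := i2.comp_sub_right T
      have : IntervalIntegrable (fun t => hnorm (deriv d (t - T))) volume T (T + S) := by
        simpa [add_comm] using this
      refine this.congr_ae ?_
      rw [Filter.EventuallyEq, ae_restrict_iff' measurableSet_uIoc]
      filter_upwards with t hmem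
      rw [uIoc_of_le (by linarith)] at hmem
      rw [hdr t hmem.1]
    unfold length
    rw [← intervalIntegral.integral_add_adjacent_intervals j1 j2]
    congr 1
    · refine intervalIntegral.integral_congr_ae ?_
      filter_upwards [hne] with t ht hmem
      rw [uIoc_of_le hT] at hmem
      rw [hdl t (lt_of_le_of_ne hmem.2 ht)]
    · have e1 : ∫ t in T..(T + S), hnorm (deriv (glue T c d) t) =
          ∫ t in T..(T + S), hnorm (deriv d (t - T)) := by
        refine intervalIntegral.integral_congr_ae ?_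
        filter_upwards with t hmem
        rw [uIoc_of_le (by linarith)] at hmem
        rw [hdr t hmem.1]
      rw [e1, intervalIntegral.integral_comp_sub_right (fun t => hnorm (deriv d t))]
      simp

end Pool.Agent.R731.EO
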