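import Mathlib

/-!
# The Carnot group structure of the jet space `J^k(ℝ, ℝ)`: definitions
-/

set_option autoImplicit false

open MeasureTheory
open scoped ENNReal

namespace Pool.Agent.R731.EO

/-- The jet space `J^k = J^k(ℝ, ℝ)`, with coordinates `(x, (u_0, …, u_k))`. -/
abbrev Jet (k : ℕ) := ℝ × (Fin (k + 1) → ℝ)

/-- The frame field `X₁ = ∂_x + ∑_{j < k} u_{j+1} ∂_{u_j}`. -/
def X₁ {k : ℕ} (q : Jet k) : Jet k :=
  (1, fun j => if h : (j : ℕ) < k then q.2 ⟨j + 1, by omega⟩ else 0)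

/-- The frame field `X₂ = ∂_{u_k}`. -/
def X₂ (k : ℕ) : Jet k := (0, Pi.single (Fin.last k) 1)

/-- `c : [0, T] → J^k` is horizontal: it is absolutely continuous, and at almost every time its
velocity lies in the distribution `D` spanned by `X₁` and `X₂`. -/
def IsHorizontal {k : ℕ} (T : ℝ) (c : ℝ → Jet k) : Prop :=
  AbsolutelyContinuousOnInterval c 0 T ∧
    ∀ᵐ t : ℝ, t ∈ Set.Icc 0 T → ∃ a b : ℝ, HasDerivAt c (a • X₁ (c t) + b • X₂ k) t

/-- The norm of a horizontal vector `a X₁ + b X₂`, that is `√(a² + b²)`, where `a` is its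
`x`-component and `b` its `u_k`-component: `X₁`, `X₂` are orthonormal. -/
noncomputable def hnorm {k : ℕ} (v : Jet k) : ℝ := √(v.1 ^ 2 + v.2 (Fin.last k) ^ 2)

/-- The length of a horizontal curve `c : [0, T] → J^k`. -/
noncomputable def length {k : ℕ} (T : ℝ) (c : ℝ → Jet k) : ℝ := ∫ t in (0 : ℝ)..T, hnorm (deriv c t)

/-- The Carnot-Carathéodory distance: the infimum of the lengths of the horizontal curves
joining two points. -/
noncomputable def ccDist {k : ℕ} (p q : Jet k) : ℝ :=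
  sInf {L | ∃ (T : ℝ) (c : ℝ → Jet k), 0 ≤ T ∧ IsHorizontal T c ∧ c 0 = p ∧ c T = q ∧
    L = length T c}

/-- The pairing of covectors and vectors in the coordinates `(x, u_0, …, u_k)`. -/
def pair {k : ℕ} (p v : Jet k) : ℝ := p.1 * v.1 + ∑ j, p.2 j * v.2 j

/-- The sub-Riemannian Hamiltonian `H(q, p) = (⟨p, X₁(q)⟩² + ⟨p, X₂⟩²) / 2`. -/
noncomputable def ham {k : ℕ} (q p : Jet k) : ℝ := (pair p (X₁ q) ^ 2 + pair p (X₂ k) ^ 2) / 2

/-- `γ : ℝ → J^k` is a geodesic parametrized by arc length: it is the projection of a trajectory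
`(γ, p)` of the Hamiltonian flow of `H` (`γ' = ∂H/∂p`, `p' = - ∂H/∂q`) on the level `H = 1/2`. -/
def IsGeodesic {k : ℕ} (γ : ℝ → Jet k) : Prop :=
  ∃ p : ℝ → Jet k, Differentiable ℝ γ ∧ Differentiable ℝ p ∧ (∀ t, ham (γ t) (p t) = 1 / 2) ∧
    (∀ t w, pair w (deriv γ t) = fderiv ℝ (fun p' => ham (γ t) p') (p t) w) ∧
    (∀ t w, pair (deriv p t) w = - fderiv ℝ (fun q' => ham q' (p t)) (γ t) w)

/-- The cut time of `γ`: the supremum of the `t > 0` such that the restriction of `γ` to `[0, t]`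
realizes the distance between its endpoints. -/
noncomputable def cutTime {k : ℕ} (γ : ℝ → Jet k) : ℝ≥0∞ :=
  ⨆ (t : ℝ) (_ : 0 < t ∧ length t γ = ccDist (γ 0) (γ t)), ENNReal.ofReal t

/-- The shifted curve `γ_s(t) = γ(t - s)`. -/
def shift {k : ℕ} (γ : ℝ → Jet k) (s : ℝ) : ℝ → Jet k := fun t => γ (t - s)

/-- `γ` is equi-optimal: the cut time of `γ_s` does not depend on `s`. -/
def EquiOptimal {k : ℕ} (γ : ℝ → Jet k) : Prop :=
  ∀ s s' : ℝ, cutTime (shift γ s) = cutTime (shift γ s')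

end Pool.Agent.R731.EO
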