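import Pool.Agent.R731.EO.Geo

/-! Calibration in the slab `|x| ≤ 2`, and the cut times of the turn-back geodesic. -/

set_option autoImplicit false

open MeasureTheory Set Filter Topology
open scoped ENNReal

namespace Pool.Agent.R731.EO

variable {k : ℕ}

/-- `|1 - x²| √(4 - x²) / 2`, which is `√(1 - F(x)²)` for `|x| ≤ 2` -/
noncomputable def g (x : ℝ) : ℝ := |1 - x ^ 2| * √(4 - x ^ 2) / 2

theorem g_nonneg (x : ℝ) : 0 ≤ g x := by unfold g; positivity

theorem g_continuous : Continuous g := by unfold g; fun_prop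

theorem g_sq {x : ℝ} (hx : |x| ≤ 2) : g x ^ 2 + F x ^ 2 = 1 := by
  have h : 0 ≤ 4 - x ^ 2 := by nlinarith [sq_abs x, abs_nonneg x]
  unfold g F
  rw [div_pow, mul_pow, Real.sq_sqrt h, sq_abs]
  ring

theorem g_le_one (x : ℝ) : g x ≤ 1 := by
  by_cases hx : |x| ≤ 2
  · have := g_sq hx
    nlinarith [g_nonneg x, sq_nonneg (F x)]
  · have h : 4 - x ^ 2 ≤ 0 := by
      push Not at hx
      nlinarith [sq_abs x, abs_nonneg x]
    unfold g
    rw [Real.sqrt_eq_zero_of_nonpos h]
    norm_num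

/-- a primitive of `g` -/
noncomputable def G (x : ℝ) : ℝ := ∫ s in (0 : ℝ)..x, g s

theorem G_deriv (x : ℝ) : HasDerivAt G (g x) x :=
  (g_continuous.integral_hasStrictDerivAt 0 x).hasDerivAt

theorem G_lip (x y : ℝ) : dist (G x) (G y) ≤ 1 * dist x y := by
  have h := Convex.norm_image_sub_le_of_norm_deriv_le (f := G) (C := 1) (s := Set.univ)
    (fun z _ => (G_deriv z).differentiableAt)
    (fun z _ => by
      rw [(G_deriv z).deriv, Real.norm_eq_abs, abs_of_nonneg (g_nonneg z)]; exact g_le_one z)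
    convex_univ (mem_univ y) (mem_univ x)
  simpa [Real.dist_eq] using h

/-- the calibrating function -/
noncomputable def S (q : Jet k) : ℝ := G q.1 + (3 / 2 * Theta q 1 - 3 * Theta q 3)

theorem S_deriv (hk : 3 ≤ k) {c : ℝ → Jet k} {a b t : ℝ}
    (h : HasDerivAt c (a • X₁ (c t) + b • X₂ k) t) :
    HasDerivAt (fun s => S (c s)) (g (c t).1 * a + F (c t).1 * b) t := by
  have h1 : HasDerivAt (fun s => G (c s).1) (g (c t).1 * a) t :=
    HasDerivAt.comp (h₂ := G) t (G_deriv (c t).1) (comp_deriv h).1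
  have h2 := (Theta_deriv h (by omega : 1 ≤ k)).const_mul (3 / 2)
  have h3 := (Theta_deriv h hk).const_mul 3
  refine (h1.add (h2.sub h3)).congr_deriv ?_
  unfold F
  simp [Nat.factorial]
  ring

theorem ac_Th {T : ℝ} {c : ℝ → Jet k} (h : IsHorizontal T c) (j : ℕ) : ∀ m, j + m ≤ k →
    AbsolutelyContinuousOnInterval (fun t => Th (c t).1 (U (c t)) j m) 0 T := by
  have hpow : ∀ n : ℕ, AbsolutelyContinuousOnInterval (fun t => (c t).1 ^ n) 0 T := by
    intro n
    induction n with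
    | zero =>
      simp only [pow_zero]
      exact contDiffOn_const.absolutelyContinuousOnInterval
    | succ n ih =>
      simp only [pow_succ]
      exact ih.mul h.ac_fst
  induction j with
  | zero => intro m hm; exact h.ac_U (by omega)
  | succ j ih =>
    intro m hm
    have i1 := ((hpow (j + 1)).const_mul (((j + 1).factorial : ℝ)⁻¹)).mul (h.ac_U (by omega : m ≤ k))
    have i2 := i1.sub (ih (m + 1) (by omega))
    refine ac_congr i2 fun t _ => ?_
    simp only [Th, Pi.sub_apply, Pi.mul_apply]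
    ring

theorem ac_S (hk : 3 ≤ k) {T : ℝ} {c : ℝ → Jet k} (h : IsHorizontal T c) :
    AbsolutelyContinuousOnInterval (fun t => S (c t)) 0 T := by
  have h1 := ac_comp_lipschitz h.ac_fst G_lip
  have h2 := (ac_Th h 1 0 (by omega)).const_mul (3 / 2)
  have h3 := (ac_Th h 3 0 (by omega)).const_mul 3
  exact h1.add (h2.sub h3)

/-- an absolutely continuous function whose derivative is bounded by the speed -/
theorem le_length_of {T : ℝ} {c : ℝ → Jet k} (h : IsHorizontal T c)
    {f : ℝ → ℝ} (hf : AbsolutelyContinuousOnInterval f 0 T) {s t : ℝ} (hs : 0 ≤ s) (hst : s ≤ t)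
    (htT : t ≤ T) (hd : ∀ᵐ r : ℝ, r ∈ Icc s t → deriv f r ≤ hnorm (deriv c r)) :
    f t - f s ≤ ∫ r in s..t, hnorm (deriv c r) := by
  have hT : 0 ≤ T := by linarith
  have hsub : uIcc s t ⊆ uIcc 0 T := by
    rw [uIcc_of_le hst, uIcc_of_le hT]; exact Icc_subset_Icc hs htT
  have hf' := hf.mono hsub
  rw [← hf'.integral_deriv_eq_sub]
  refine intervalIntegral.integral_mono_ae_restrict hst hf'.intervalIntegrable_deriv
    ((h.integrable hT).mono_set hsub) ?_
  rw [Filter.EventuallyLE, ae_restrict_iff' measurableSet_Icc]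
  exact hd

theorem cs {a b α β : ℝ} (h : α ^ 2 + β ^ 2 = 1) : α * a + β * b ≤ √(a ^ 2 + b ^ 2) := by
  refine Real.le_sqrt_of_sq_le ?_
  nlinarith [sq_nonneg (α * b - β * a)]

/-- calibration in the slab -/
theorem slab_bound (hk : 3 ≤ k) {T : ℝ} (hT : 0 ≤ T) {c : ℝ → Jet k} (h : IsHorizontal T c)
    (hx : ∀ t ∈ Icc 0 T, |(c t).1| ≤ 2) : S (c T) - S (c 0) ≤ length T c := by
  refine le_length_of h (ac_S hk h) le_rfl hT le_rfl ?_
  filter_upwards [h.2] with t ht hmem
  obtain ⟨a, b, hab⟩ := ht hmem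
  rw [(S_deriv hk hab).deriv, hab.deriv, hnorm_frame]
  exact cs (g_sq (hx t hmem))

theorem plane_bound {T : ℝ} {c : ℝ → Jet k} (h : IsHorizontal T c) {s t : ℝ}
    (hs : 0 ≤ s) (hst : s ≤ t) (htT : t ≤ T) {α β : ℝ} (hab : α ^ 2 + β ^ 2 = 1) :
    α * ((c t).1 - (c s).1) + β * (U (c t) 0 - U (c s) 0) ≤ ∫ r in s..t, hnorm (deriv c r) := by
  have := le_length_of h ((h.ac_fst.const_mul α).add ((h.ac_U (Nat.zero_le k)).const_mul β))
    hs hst htT ?_
  · simp only [Pi.add_apply] at this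
    linarith
  · filter_upwards [h.2] with r hr hmem
    obtain ⟨a, b, hab'⟩ := hr ⟨hs.trans hmem.1, hmem.2.trans htT⟩
    obtain ⟨h1, h2, -⟩ := comp_deriv hab'
    have h3 := (h1.const_mul α).add (h2.const_mul β)
    rw [h3.deriv, hab'.deriv, hnorm_frame]
    exact cs hab

/-- curves leaving the slab are long -/
theorem leave_bound {T : ℝ} {c : ℝ → Jet k} (h : IsHorizontal T c) {s : ℝ}
    (hs : s ∈ Icc 0 T) (hout : 2 < |(c s).1|) (h0 : |(c 0).1| ≤ 1) (h1 : |(c T).1| ≤ 1)
    {α β : ℝ} (hα : 0 ≤ α) (hab : α ^ 2 + β ^ 2 = 1) :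
    2 * α + β * (U (c T) 0 - U (c 0) 0) ≤ length T c := by
  have hT : 0 ≤ T := hs.1.trans hs.2
  have hsplit : length T c = (∫ r in (0 : ℝ)..s, hnorm (deriv c r)) +
      ∫ r in s..T, hnorm (deriv c r) := by
    unfold length
    refine (intervalIntegral.integral_add_adjacent_intervals ?_ ?_).symm
    · exact (h.integrable hT).mono_set
        (by rw [uIcc_of_le hs.1, uIcc_of_le hT]; exact Icc_subset_Icc le_rfl hs.2)
    · exact (h.integrable hT).mono_set
        (by rw [uIcc_of_le hs.2, uIcc_of_le hT]; exact Icc_subset_Icc hs.1 le_rfl)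
  rw [hsplit]
  rw [abs_le] at h0 h1
  have hab' : (-α) ^ 2 + β ^ 2 = 1 := by rw [neg_sq]; exact hab
  rcases lt_abs.1 hout with hp | hp
  · have b1 := plane_bound h le_rfl hs.1 hs.2 hab
    have b2 := plane_bound h hs.1 hs.2 le_rfl hab'
    nlinarith [mul_le_mul_of_nonneg_left hp.le hα, mul_le_mul_of_nonneg_left h0.2 hα,
      mul_le_mul_of_nonneg_left h1.2 hα]
  · have b1 := plane_bound h le_rfl hs.1 hs.2 hab'
    have b2 := plane_bound h hs.1 hs.2 le_rfl hab
    nlinarith [mul_le_mul_of_nonneg_left hp.le hα, mul_le_mul_of_nonneg_left h0.1 hα,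
      mul_le_mul_of_nonneg_left h1.1 hα]

/-! ### the geodesic -/

theorem g_gam (k : ℕ) (t : ℝ) : g (gam k t).1 = Real.cos (3 * th t) := by
  have h1 := quarter_pos t
  have h2 := cos_th_pos t
  have e1 : 1 - (gam k t).1 ^ 2 = 1 - 4 * Real.sin (th t) ^ 2 := by rw [gam_fst]; ring
  have e2 : 4 - (gam k t).1 ^ 2 = (2 * Real.cos (th t)) ^ 2 := by
    rw [gam_fst, mul_pow, mul_pow, Real.cos_sq' (th t)]; ring
  unfold g
  rw [e1, e2, Real.sqrt_sq (by positivity), abs_of_pos h1, cos3]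
  ring

theorem S_gam (hk : 3 ≤ k) (s t : ℝ) : S (gam k t) - S (gam k s) = t - s := by
  have h : ∀ t, HasDerivAt (fun t => S (gam k t) - t) 0 t := by
    intro t
    refine ((S_deriv hk (gam_deriv k t)).sub (hasDerivAt_id t)).congr_deriv ?_
    rw [g_gam, F_gam]
    have := Real.cos_sq_add_sin_sq (3 * th t)
    linarith
  have := const_of_deriv_zero h t s
  linarith

/-- the shifted geodesic -/
theorem shift_deriv (k : ℕ) (s t : ℝ) : HasDerivAt (shift (gam k) s)
    (Real.cos (3 * th (t - s)) • X₁ (shift (gam k) s t) + Real.sin (3 * th (t - s)) • X₂ k) t :=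
  (gam_deriv k (t - s)).comp_sub_const t s

theorem shift_hor (k : ℕ) (s T : ℝ) : IsHorizontal T (shift (gam k) s) :=
  isHorizontal_of_deriv (a := fun t => Real.cos (3 * th (t - s)))
    (b := fun t => Real.sin (3 * th (t - s)))
    (contA.comp (continuous_id.sub continuous_const))
    (contB.comp (continuous_id.sub continuous_const)) (shift_deriv k s) T

theorem shift_length (k : ℕ) (s T : ℝ) : length T (shift (gam k) s) = T := by
  rw [length_of_deriv (a := fun t => Real.cos (3 * th (t - s)))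
    (b := fun t => Real.sin (3 * th (t - s))) (shift_deriv k s)]
  simp [Real.cos_sq_add_sin_sq]

theorem shift_reach (k : ℕ) (s : ℝ) {T : ℝ} (hT : 0 ≤ T) :
    Reach (gam k (-s)) (gam k (T - s)) T :=
  ⟨T, shift (gam k) s, hT, shift_hor k s T, by simp [shift], rfl, (shift_length k s T).symm⟩

theorem sin3_le {A t : ℝ} (hA : 0 ≤ A) (ht : t ≤ -A) :
    Real.sin (3 * th t) ≤ -1 + 2 / (1 + A / 2) := by
  have hth : th t ≤ 0 := by
    unfold th
    rw [Real.arctan_le_zero]
    unfold w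
    refine div_nonpos_of_nonpos_of_nonneg ?_ ?_
    · rw [Real.sinh_nonpos_iff]
      exact mul_nonpos_of_nonneg_of_nonpos (by positivity) (by linarith)
    · have := Real.cosh_pos (√3 / 2 * t); positivity
  -- `sin (3 θ) ≤ 0`
  have hs : Real.sin (3 * th t) ≤ 0 := by
    rw [Real.sin_three_mul]
    have h1 : Real.sin (th t) ≤ 0 := by
      refine Real.sin_nonpos_of_nonpos_of_neg_pi_le hth ?_
      have := Real.neg_pi_div_two_lt_arctan (w t)
      unfold th
      linarith [Real.pi_pos]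
    have h2 := quarter_pos t
    nlinarith
  have hc : Real.cos (3 * th t) ^ 2 ≤ 1 / Real.cosh (√3 / 2 * t) := by
    have h1 : Real.cos (3 * th t) ≤ 1 / Real.cosh (√3 / 2 * t) ^ 2 := by
      rw [cos3, quarter]
      have hc := Real.cosh_pos (√3 / 2 * t)
      have hw : 0 < 1 + w t ^ 2 := by positivity
      have e1 : 1 / Real.cosh (√3 / 2 * t) ^ 2 / (1 + w t ^ 2) ≤ 1 / Real.cosh (√3 / 2 * t) ^ 2 :=
        div_le_self (by positivity) (by nlinarith [sq_nonneg (w t)])
      calc _ ≤ 1 * (1 / Real.cosh (√3 / 2 * t) ^ 2) :=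
            mul_le_mul (Real.cos_le_one _) e1 (by positivity) zero_le_one
        _ = _ := one_mul _
    have h2 := cos3_pos t
    have h3 := Real.cos_le_one (3 * th t)
    have h4 := Real.one_le_cosh (√3 / 2 * t)
    have h5 : 1 / Real.cosh (√3 / 2 * t) ^ 2 ≤ 1 / Real.cosh (√3 / 2 * t) := by
      refine one_div_le_one_div_of_le (by linarith) ?_
      nlinarith
    nlinarith
  have hcosh : (1 + A / 2) / 2 ≤ Real.cosh (√3 / 2 * t) := by
    have h1 : Real.cosh (√3 / 2 * t) = Real.cosh (-(√3 / 2 * t)) := (Real.cosh_neg _).symm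
    rw [h1, Real.cosh_eq]
    have h2 := Real.add_one_le_exp (-(√3 / 2 * t))
    have h3 := Real.exp_pos (- -(√3 / 2 * t))
    have h4 : 1 ≤ √(3 : ℝ) := Real.one_le_sqrt.2 (by norm_num)
    nlinarith
  have hA' : 0 < (1 + A / 2) / 2 := by positivity
  have h6 : 1 / Real.cosh (√3 / 2 * t) ≤ 2 / (1 + A / 2) := by
    have := one_div_le_one_div_of_le hA' hcosh
    calc _ ≤ _ := this
      _ = _ := by field_simp
  have h7 := Real.sin_sq_add_cos_sq (3 * th t)
  have h8 := Real.neg_one_le_sin (3 * th t)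
  -- (1 + s) ≤ (1 + s) (1 - s) = cos²
  nlinarith

/-- far out, the geodesic minimizes on long intervals -/
theorem far_min (hk : 3 ≤ k) {τ : ℝ} (hτ : 0 < τ) :
    ccDist (shift (gam k) (τ + 2 * τ ^ 2) 0) (shift (gam k) (τ + 2 * τ ^ 2) τ) = τ := by
  set s := τ + 2 * τ ^ 2 with hs
  have hd := shift_deriv k s
  have hΔ : U (shift (gam k) s τ) 0 - U (shift (gam k) s 0) 0 ≤ -τ + 2 / τ := by
    set f : ℝ → ℝ := fun t => U (shift (gam k) s t) 0 with hf
    have hfd : ∀ t, HasDerivAt f (Real.sin (3 * th (t - s))) t := fun t => (comp_deriv (hd t)).2.1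
    have hb : ∀ t ∈ Icc 0 τ, Real.sin (3 * th (t - s)) ≤ -1 + 2 / τ ^ 2 := by
      intro t ht
      have := sin3_le (A := 2 * τ ^ 2) (t := t - s) (by positivity) (by linarith [ht.2])
      have h2 : 2 / (1 + 2 * τ ^ 2 / 2) ≤ 2 / τ ^ 2 := by
        refine div_le_div_of_nonneg_left (by norm_num) (by positivity) (by linarith)
      linarith
    have := (convex_Icc (0 : ℝ) τ).image_sub_le_mul_sub_of_deriv_le
      (f := f) (C := -1 + 2 / τ ^ 2) (continuous_of_hasDerivAt hfd).continuousOn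
      (fun t _ => (hfd t).differentiableAt.differentiableWithinAt)
      (fun t ht => by
        rw [(hfd t).deriv]; exact hb t (interior_subset ht)) 0 ⟨le_rfl, hτ.le⟩ τ ⟨hτ.le, le_rfl⟩ hτ.le
    calc f τ - f 0 ≤ (-1 + 2 / τ ^ 2) * (τ - 0) := this
      _ = -τ + 2 / τ := by field_simp; ring
  refine le_antisymm ?_ ?_
  · have : Reach (shift (gam k) s 0) (shift (gam k) s τ) τ :=
      ⟨τ, shift (gam k) s, hτ.le, shift_hor k s τ, rfl, rfl, (shift_length k s τ).symm⟩
    exact this.ccDist_le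
  · refine le_csInf ⟨τ, τ, shift (gam k) s, hτ.le, shift_hor k s τ, rfl, rfl,
      (shift_length k s τ).symm⟩ ?_
    rintro _ ⟨T, c, hT, hc, h0, h1, rfl⟩
    by_cases hx : ∀ t ∈ Icc 0 T, |(c t).1| ≤ 2
    · have h2 := slab_bound hk hT hc hx
      rw [h0, h1] at h2
      have h3 : S (shift (gam k) s τ) - S (shift (gam k) s 0) = (τ - s) - (0 - s) := S_gam hk _ _
      linarith
    · push Not at hx
      obtain ⟨r, hr, hr2⟩ := hx
      have hD : 0 < √(4 + τ ^ 2) := Real.sqrt_pos.2 (by positivity)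
      have hD2 : √(4 + τ ^ 2) ^ 2 = 4 + τ ^ 2 := Real.sq_sqrt (by positivity)
      have h2 := leave_bound hc hr hr2 (by rw [h0]; exact gam_abs_le k _)
        (by rw [h1]; exact gam_abs_le k _) (α := 2 / √(4 + τ ^ 2)) (β := -τ / √(4 + τ ^ 2))
        (by positivity) (by rw [div_pow, div_pow, hD2]; field_simp; ring)
      rw [h0, h1] at h2
      refine le_trans ?_ h2
      have h3 : -τ / √(4 + τ ^ 2) * (-τ + 2 / τ) ≤ -τ / √(4 + τ ^ 2) *
          (U (shift (gam k) s τ) 0 - U (shift (gam k) s 0) 0) := by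
        refine mul_le_mul_of_nonpos_left hΔ ?_
        rw [neg_div]
        have : 0 < τ / √(4 + τ ^ 2) := by positivity
        linarith
      refine le_trans ?_ (add_le_add_right h3 _)
      have h4 : 2 * (2 / √(4 + τ ^ 2)) + -τ / √(4 + τ ^ 2) * (-τ + 2 / τ) =
          (τ ^ 2 + 2) / √(4 + τ ^ 2) := by
        field_simp
        ring
      rw [h4, le_div_iff₀ hD]
      have h5 : (τ * √(4 + τ ^ 2)) ^ 2 ≤ (τ ^ 2 + 2) ^ 2 := by
        rw [mul_pow, hD2]; ring_nf; nlinarith
      exact (abs_le_of_sq_le_sq' h5 (by positivity)).2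

/-! ### non-minimality of the symmetric turn-back segment -/

theorem sin3_odd (t : ℝ) : Real.sin (3 * th (-t)) = -Real.sin (3 * th t) := by
  rw [th_neg, mul_neg, Real.sin_neg]

theorem Theta_zero_even (k : ℕ) (t : ℝ) : Theta (gam k t) 0 = Theta (gam k (-t)) 0 := by
  have h1 : ∀ t, HasDerivAt (fun t => Theta (gam k t) 0) (Real.sin (3 * th t)) t := by
    intro t
    simpa using Theta_deriv (gam_deriv k t) (Nat.zero_le k)
  have h : ∀ t, HasDerivAt (fun t => Theta (gam k t) 0 - Theta (gam k (-t)) 0) 0 t := by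
    intro t
    have h2 : HasDerivAt (fun t => Theta (gam k (-t)) 0) (-Real.sin (3 * th (-t))) t := by
      have := (h1 (-t)).comp t (hasDerivAt_neg t)
      refine this.congr_deriv ?_
      ring
    refine ((h1 t).sub h2).congr_deriv ?_
    rw [sin3_odd]
    ring
  have := const_of_deriv_zero h t 0
  simp at this
  linarith

theorem Theta_gam_lip (k : ℕ) {j : ℕ} (hj : j ≤ k) (s t : ℝ) :
    |Theta (gam k t) j - Theta (gam k s) j| ≤ |t - s| := by
  have h1 : ∀ t, HasDerivAt (fun t => Theta (gam k t) j) ((gam k t).1 ^ j / j.factorial *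
      Real.sin (3 * th t)) t := fun t => Theta_deriv (gam_deriv k t) hj
  have h := Convex.norm_image_sub_le_of_norm_deriv_le (f := fun t => Theta (gam k t) j) (C := 1)
    (s := Set.univ) (fun z _ => (h1 z).differentiableAt)
    (fun z _ => by
      rw [(h1 z).deriv, Real.norm_eq_abs, abs_mul, abs_div, abs_pow, Nat.abs_cast]
      have e1 : |(gam k z).1| ^ j ≤ 1 := pow_le_one₀ (abs_nonneg _) (gam_abs_le k z)
      have e2 : (1 : ℝ) ≤ j.factorial := by exact_mod_cast Nat.factorial_pos j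
      have e3 : |(gam k z).1| ^ j / j.factorial ≤ 1 := by
        rw [div_le_one (by linarith)]; linarith
      have e4 := Real.abs_sin_le_one (3 * th z)
      exact mul_le_one₀ e3 (abs_nonneg _) e4)
    convex_univ (mem_univ s) (mem_univ t)
  simpa using h

/-- The half length of a non-minimizing symmetric segment. -/
theorem exists_short (k : ℕ) : ∃ T : ℝ, 0 < T ∧ ∃ L, L < 2 * T ∧ Reach (gam k (-T)) (gam k T) L := by
  set K : ℝ := 2 * k + 4 + 2 * CV k with hK
  have hCV := CV_nonneg k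
  have hK4 : 4 ≤ K := by have : (0 : ℝ) ≤ k := Nat.cast_nonneg k; linarith
  have hT : 0 < K ^ 2 := by positivity
  refine ⟨K ^ 2, hT, ?_⟩
  obtain ⟨L, hL, hLb⟩ := reach_bound (gam k (-K ^ 2)) (gam k (K ^ 2)) (D := 2 * K ^ 2) (R := K)
    (by linarith) (gam_abs_le k _) (gam_abs_le k _) (Theta_zero_even k _)
    (fun j hj => by
      have := Theta_gam_lip k hj (-K ^ 2) (K ^ 2)
      rw [show K ^ 2 - -K ^ 2 = 2 * K ^ 2 by ring,
        abs_of_pos (by positivity : 0 < 2 * K ^ 2)] at this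
      exact this)
  refine ⟨L, ?_, hL⟩
  have e : 2 * K ^ 2 / K = 2 * K := by field_simp
  rw [e] at hLb
  have : (2 * (k : ℝ) + 2) * K + 2 + CV k * (2 * K) ≤ K ^ 2 := by
    rw [show K ^ 2 = (2 * k + 4 + 2 * CV k) * K by rw [← hK]; ring]
    nlinarith
  linarith

theorem cut_finite (k : ℕ) : ∃ s : ℝ, cutTime (shift (gam k) s) < ⊤ := by
  obtain ⟨T, hT, L, hL, hR⟩ := exists_short k
  refine ⟨T, lt_of_le_of_lt (iSup₂_le fun t ht => ?_) (ENNReal.ofReal_lt_top (r := 2 * T))⟩
  refine ENNReal.ofReal_le_ofReal ?_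
  by_contra hc
  push Not at hc
  have h1 : Reach (gam k T) (gam k (t - T)) (t - 2 * T) := by
    have := shift_reach k (-T) (T := t - 2 * T) (by linarith)
    rwa [neg_neg, show t - 2 * T - -T = t - T by ring] at this
  have h2 := (hR.trans h1).ccDist_le
  have h3 := ht.2
  rw [shift_length] at h3
  have h4 : shift (gam k) T 0 = gam k (-T) := by simp [shift]
  have h5 : shift (gam k) T t = gam k (t - T) := rfl
  rw [h4, h5] at h3
  linarith

theorem cut_large (hk : 3 ≤ k) (R : ℝ) : ∃ s : ℝ, ENNReal.ofReal R ≤ cutTime (shift (gam k) s) := by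
  rcases le_or_gt R 0 with h | h
  · exact ⟨0, by rw [ENNReal.ofReal_of_nonpos h]; exact bot_le⟩
  · refine ⟨R + 2 * R ^ 2, ?_⟩
    refine le_iSup₂_of_le R ⟨h, ?_⟩ le_rfl
    rw [shift_length, far_min hk h]

theorem main (k : ℕ) (hk : 3 ≤ k) : ∃ γ : ℝ → Jet k, IsGeodesic γ ∧ ¬ EquiOptimal γ ∧
    (∃ s, cutTime (shift γ s) < ⊤) ∧ ∀ R : ℝ, ∃ s, ENNReal.ofReal R ≤ cutTime (shift γ s) := by
  refine ⟨gam k, gam_isGeodesic hk, ?_, cut_finite k, cut_large hk⟩
  intro h
  obtain ⟨s, hs⟩ := cut_finite k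
  obtain ⟨s', hs'⟩ := cut_large hk ((cutTime (shift (gam k) s)).toReal + 1)
  rw [h s' s] at hs'
  have h1 := (ENNReal.ofReal_le_iff_le_toReal hs.ne).1 hs'
  linarith

end Pool.Agent.R731.EO
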