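import Pool.Agent.R731.EO.Moves

/-! The turn-back geodesic of the polynomial `F(x) = (3 x - x³) / 2`. -/

set_option autoImplicit false

open MeasureTheory Set Filter Topology

namespace Pool.Agent.R731.EO

variable {k : ℕ}

/-- `w(t) = tanh(√3 t / 2) / √3` -/
noncomputable def w (t : ℝ) : ℝ := Real.sinh (√3 / 2 * t) / (√3 * Real.cosh (√3 / 2 * t))

/-- the angle `θ(t) = arctan w(t)`, which solves `θ' = (1 - 4 sin² θ) / 2` -/
noncomputable def th (t : ℝ) : ℝ := Real.arctan (w t)

theorem sqrt3_sq : √3 ^ 2 = (3 : ℝ) := Real.sq_sqrt (by norm_num)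

theorem sqrt3_pos : 0 < √(3 : ℝ) := Real.sqrt_pos.2 (by norm_num)

theorem w_sq (t : ℝ) : 1 - 3 * w t ^ 2 = 1 / Real.cosh (√3 / 2 * t) ^ 2 := by
  unfold w
  generalize √3 / 2 * t = u
  have h := Real.cosh_sq u
  have hc := Real.cosh_pos u
  rw [div_pow, mul_pow, sqrt3_sq]
  field_simp
  linarith

theorem w_deriv (t : ℝ) : HasDerivAt w ((1 - 3 * w t ^ 2) / 2) t := by
  have hc := Real.cosh_pos (√3 / 2 * t)
  have h0 : HasDerivAt (fun t : ℝ => √3 / 2 * t) (√3 / 2) t := by
    simpa using (hasDerivAt_id t).const_mul (√3 / 2)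
  have h1 := h0.sinh
  have h2 := (h0.cosh).const_mul √3
  have h3 := h1.div h2 (by have := sqrt3_pos; positivity)
  refine h3.congr_deriv ?_
  rw [w_sq]
  clear h3 h2 h1 h0
  generalize √3 / 2 * t = u at *
  have h := Real.cosh_sq u
  have h3 := sqrt3_pos
  field_simp
  linarith

theorem th_deriv (t : ℝ) : HasDerivAt th ((1 - 4 * Real.sin (th t) ^ 2) / 2) t := by
  have h := (w_deriv t).arctan
  refine h.congr_deriv ?_
  have h1 : Real.sin (th t) ^ 2 = 1 - 1 / (1 + w t ^ 2) := by
    rw [Real.sin_sq, th, Real.cos_sq_arctan]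
  rw [h1]
  have : 0 < 1 + w t ^ 2 := by positivity
  field_simp
  ring

theorem th_zero : th 0 = 0 := by simp [th, w]

theorem th_neg (t : ℝ) : th (-t) = -th t := by
  unfold th w
  rw [← Real.arctan_neg]
  congr 1
  rw [mul_neg, Real.sinh_neg, Real.cosh_neg]
  ring

theorem cos_th_pos (t : ℝ) : 0 < Real.cos (th t) := Real.cos_arctan_pos _

theorem th_continuous : Continuous th := continuous_of_hasDerivAt th_deriv

theorem quarter (t : ℝ) : 1 - 4 * Real.sin (th t) ^ 2 =
    1 / Real.cosh (√3 / 2 * t) ^ 2 / (1 + w t ^ 2) := by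
  have h1 : Real.sin (th t) ^ 2 = 1 - 1 / (1 + w t ^ 2) := by
    rw [Real.sin_sq, th, Real.cos_sq_arctan]
  rw [h1, ← w_sq]
  have : 0 < 1 + w t ^ 2 := by positivity
  field_simp
  ring

theorem quarter_pos (t : ℝ) : 0 < 1 - 4 * Real.sin (th t) ^ 2 := by
  rw [quarter]
  have hc := Real.cosh_pos (√3 / 2 * t)
  positivity

theorem cos3 (t : ℝ) : Real.cos (3 * th t) = Real.cos (th t) * (1 - 4 * Real.sin (th t) ^ 2) := by
  rw [Real.cos_three_mul, Real.sin_sq]
  ring

theorem cos3_pos (t : ℝ) : 0 < Real.cos (3 * th t) := by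
  rw [cos3]; exact mul_pos (cos_th_pos t) (quarter_pos t)

/-- the geodesic -/
noncomputable def gam (k : ℕ) : ℝ → Jet k :=
  curve (fun t => Real.cos (3 * th t)) (fun t => Real.sin (3 * th t)) 0

theorem contA : Continuous fun t => Real.cos (3 * th t) :=
  Real.continuous_cos.comp (continuous_const.mul th_continuous)

theorem contB : Continuous fun t => Real.sin (3 * th t) :=
  Real.continuous_sin.comp (continuous_const.mul th_continuous)

theorem gam_deriv (k : ℕ) (t : ℝ) : HasDerivAt (gam k)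
    (Real.cos (3 * th t) • X₁ (gam k t) + Real.sin (3 * th t) • X₂ k) t :=
  curve_deriv contA contB 0 t

theorem gam_fst (k : ℕ) (t : ℝ) : (gam k t).1 = 2 * Real.sin (th t) := by
  have h : ∀ t, HasDerivAt (fun t => (gam k t).1 - 2 * Real.sin (th t)) 0 t := by
    intro t
    have h1 := (comp_deriv (gam_deriv k t)).1
    have h2 := ((th_deriv t).sin).const_mul 2
    refine (h1.sub h2).congr_deriv ?_
    rw [cos3]
    ring
  have := const_of_deriv_zero h t 0
  simp only [th_zero, Real.sin_zero] at this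
  have h0 : gam k 0 = 0 := curve_zero _ _ _
  rw [h0] at this
  simp at this
  linarith

theorem gam_abs_le (k : ℕ) (t : ℝ) : |(gam k t).1| ≤ 1 := by
  rw [gam_fst]
  have := quarter_pos t
  rw [abs_le]
  constructor <;> nlinarith

/-- the polynomial -/
noncomputable def F (x : ℝ) : ℝ := (3 * x - x ^ 3) / 2

theorem F_gam (k : ℕ) (t : ℝ) : F (gam k t).1 = Real.sin (3 * th t) := by
  rw [gam_fst, F, Real.sin_three_mul]
  ring

/-! ### the Hamiltonian side -/

/-- `(-1)^i F^{(i)}(x)` -/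
noncomputable def pm (x : ℝ) : ℕ → ℝ
  | 0 => (3 * x - x ^ 3) / 2
  | 1 => -((3 - 3 * x ^ 2) / 2)
  | 2 => -3 * x
  | 3 => 3
  | _ + 4 => 0

theorem pm_deriv (x : ℝ) (i : ℕ) : HasDerivAt (fun x => pm x i) (-pm x (i + 1)) x := by
  have h1 := hasDerivAt_id x
  match i with
  | 0 =>
    have := ((h1.const_mul 3).sub (h1.pow 3)).div_const 2
    refine this.congr_deriv ?_
    simp [pm]
  | 1 =>
    have := ((((h1.pow 2).const_mul 3).const_sub 3).div_const 2).neg
    refine this.congr_deriv ?_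
    simp [pm]
    ring
  | 2 =>
    have := h1.const_mul (-3)
    refine this.congr_deriv ?_
    simp [pm]
  | 3 => simpa [pm] using hasDerivAt_const x (3 : ℝ)
  | n + 4 => simpa [pm] using hasDerivAt_const x (0 : ℝ)

theorem pm_zero_of_ge (x : ℝ) {i : ℕ} (hi : 4 ≤ i) : pm x i = 0 := by
  obtain ⟨j, rfl⟩ := Nat.exists_eq_add_of_le' hi
  rfl

theorem pair_eq (p v : Jet k) : pair p v = p.1 * v.1 + ∑ i ∈ Finset.range (k + 1), U p i * U v i := by
  unfold pair
  congr 1
  rw [← Finset.sum_range_reflect]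
  rw [← Fin.sum_univ_eq_sum_range (fun i => U p (k + 1 - 1 - i) * U v (k + 1 - 1 - i))]
  refine Finset.sum_congr rfl fun j _ => ?_
  rw [U_of_le _ (by omega), U_of_le _ (by omega)]
  have e : (⟨k - (k + 1 - 1 - (j : ℕ)), by omega⟩ : Fin (k + 1)) = j := by
    ext; simp; omega
  rw [e]

theorem U_X₁_zero (q : Jet k) : U (X₁ q) 0 = 0 := by
  rw [U_zero]; simp [X₁]

theorem U_X₁_succ (q : Jet k) {i : ℕ} (hi : i + 1 ≤ k) : U (X₁ q) (i + 1) = U q i := by
  have h := frame_lt q 1 0 (by omega : k - (i + 1) < k)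
  rw [one_smul, zero_smul, add_zero, one_mul] at h
  rw [U_of_le _ hi, h, U_of_le _ (by omega : i ≤ k)]
  have e : (⟨k - (i + 1) + 1, by omega⟩ : Fin (k + 1)) = ⟨k - i, by omega⟩ := by
    ext; simp; omega
  rw [e]

theorem U_X₂_zero : U (X₂ k) 0 = 1 := by
  rw [U_zero]; simp [X₂]

theorem U_X₂_succ {i : ℕ} (hi : i + 1 ≤ k) : U (X₂ k) (i + 1) = 0 := by
  have h := frame_lt (0 : Jet k) 0 1 (by omega : k - (i + 1) < k)
  rw [one_smul, zero_smul, zero_add, zero_mul] at h
  rw [U_of_le _ hi, h]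

theorem pair_X₁ (p q : Jet k) : pair p (X₁ q) = p.1 + ∑ i ∈ Finset.range k, U p (i + 1) * U q i := by
  rw [pair_eq, Finset.sum_range_succ', U_X₁_zero]
  have : (X₁ q).1 = 1 := rfl
  rw [this, mul_one, mul_zero, add_zero]
  congr 1
  refine Finset.sum_congr rfl fun i hi => ?_
  rw [Finset.mem_range] at hi
  rw [U_X₁_succ q (by omega)]

theorem pair_X₂ (p : Jet k) : pair p (X₂ k) = U p 0 := by
  rw [pair_eq, Finset.sum_range_succ', U_X₂_zero]
  have : (X₂ k).1 = 0 := rfl
  rw [this, mul_zero, mul_one, zero_add]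
  rw [Finset.sum_eq_zero]
  · simp
  · intro i hi
    rw [Finset.mem_range] at hi
    rw [U_X₂_succ (by omega), mul_zero]

theorem U_add (p q : Jet k) (i : ℕ) : U (p + q) i = U p i + U q i := by
  unfold U; split_ifs <;> simp

theorem U_smul (c : ℝ) (q : Jet k) (i : ℕ) : U (c • q) i = c * U q i := by
  unfold U; split_ifs <;> simp

/-- the linear functional `p ↦ ⟨p, v⟩` -/
noncomputable def pairR (v : Jet k) : Jet k →ₗ[ℝ] ℝ where
  toFun p := pair p v
  map_add' p q := by
    simp only [pair_eq, U_add, Prod.fst_add, add_mul, Finset.sum_add_distrib]; ring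
  map_smul' c p := by
    simp only [pair_eq, U_smul, Prod.smul_fst, smul_eq_mul, RingHom.id_apply, mul_add,
      Finset.mul_sum, mul_assoc]

/-- the linear functional `w ↦ ∑ p_{u_j} w_{j+1}` -/
noncomputable def lin (p : Jet k) : Jet k →ₗ[ℝ] ℝ where
  toFun v := ∑ i ∈ Finset.range k, U p (i + 1) * U v i
  map_add' v w := by
    simp only [U_add, mul_add, Finset.sum_add_distrib]
  map_smul' c v := by
    simp only [U_smul, smul_eq_mul, RingHom.id_apply, Finset.mul_sum]
    refine Finset.sum_congr rfl fun i _ => by ring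

theorem fderiv_ham_p (q p w : Jet k) : fderiv ℝ (fun p' => ham q p') p w =
    pair p (X₁ q) * pair w (X₁ q) + pair p (X₂ k) * pair w (X₂ k) := by
  have h1 : HasFDerivAt (fun p' => pair p' (X₁ q)) (pairR (X₁ q)).toContinuousLinearMap p :=
    (pairR (X₁ q)).toContinuousLinearMap.hasFDerivAt
  have h2 : HasFDerivAt (fun p' => pair p' (X₂ k)) (pairR (X₂ k)).toContinuousLinearMap p :=
    (pairR (X₂ k)).toContinuousLinearMap.hasFDerivAt
  have h3 := ((h1.pow 2).add (h2.pow 2)).const_mul (1 / 2)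
  have h4 : HasFDerivAt (fun p' => ham q p') _ p := h3.congr_of_eventuallyEq
    (Eventually.of_forall fun p' => by simp only [ham, Pi.add_apply, Pi.pow_apply]; ring)
  rw [h4.fderiv]
  simp [pairR]
  ring

theorem fderiv_ham_q (q p w : Jet k) : fderiv ℝ (fun q' => ham q' p) q w =
    pair p (X₁ q) * ∑ i ∈ Finset.range k, U p (i + 1) * U w i := by
  have h1 : HasFDerivAt (fun q' => pair p (X₁ q')) (lin p).toContinuousLinearMap q := by
    have : (fun q' => pair p (X₁ q')) = fun q' => p.1 + (lin p).toContinuousLinearMap q' := by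
      funext q'; rw [pair_X₁]; rfl
    rw [this]
    exact (lin p).toContinuousLinearMap.hasFDerivAt.const_add _
  have h3 := ((h1.pow 2).add_const (pair p (X₂ k) ^ 2)).const_mul (1 / 2)
  have h4 : HasFDerivAt (fun q' => ham q' p) _ q := h3.congr_of_eventuallyEq
    (Eventually.of_forall fun p' => by simp only [ham, Pi.pow_apply]; ring)
  rw [h4.fderiv]
  simp [lin]
  ring

/-- the covector -/
noncomputable def cov (k : ℕ) (t : ℝ) : Jet k :=
  (Real.cos (3 * th t) - (pm (gam k t).1 1 * U (gam k t) 0 + pm (gam k t).1 2 * U (gam k t) 1 +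
    pm (gam k t).1 3 * U (gam k t) 2), fun j => pm (gam k t).1 (k - j))

theorem U_cov (t : ℝ) {i : ℕ} (hi : i ≤ k) : U (cov k t) i = pm (gam k t).1 i := by
  rw [U_of_le _ hi]
  show pm (gam k t).1 (k - (k - i)) = _
  congr 1
  omega

theorem cov_deriv (hk : 3 ≤ k) (t : ℝ) : HasDerivAt (cov k)
    (0, fun j => -(Real.cos (3 * th t) * pm (gam k t).1 (k - j + 1))) t := by
  obtain ⟨h1, h2, h3⟩ := comp_deriv (gam_deriv k t)
  have hp : ∀ i, HasDerivAt (fun t => pm (gam k t).1 i)
      (-(Real.cos (3 * th t) * pm (gam k t).1 (i + 1))) t := by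
    intro i
    have := (pm_deriv (gam k t).1 i).comp t h1
    refine this.congr_deriv ?_
    ring
  refine HasDerivAt.prodMk ?_ (hasDerivAt_pi.2 fun j => hp _)
  have u1 := h3 0 (by omega)
  have u2 := h3 1 (by omega)
  simp only [zero_add, one_add_one_eq_two] at u1 u2
  have hc : HasDerivAt (fun t => Real.cos (3 * th t)) _ t := ((th_deriv t).const_mul 3).cos
  have h4 := hc.sub ((((hp 1).mul h2).add ((hp 2).mul u1)).add ((hp 3).mul u2))
  refine h4.congr_deriv ?_
  have e1 : pm (gam k t).1 4 = 0 := rfl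
  have e2 : pm (gam k t).1 3 = 3 := rfl
  have e3 : pm (gam k t).1 2 = -3 * (gam k t).1 := rfl
  have e4 : pm (gam k t).1 1 = -((3 - 3 * (gam k t).1 ^ 2) / 2) := rfl
  simp only [e1, e2, e3, e4]
  rw [gam_fst]
  ring

theorem pair_cov_X₁ (hk : 3 ≤ k) (t : ℝ) : pair (cov k t) (X₁ (gam k t)) = Real.cos (3 * th t) := by
  rw [pair_X₁]
  have e : ∑ i ∈ Finset.range k, U (cov k t) (i + 1) * U (gam k t) i =
      ∑ i ∈ Finset.range 3, pm (gam k t).1 (i + 1) * U (gam k t) i := by
    have e1 : ∑ i ∈ Finset.range k, U (cov k t) (i + 1) * U (gam k t) i =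
        ∑ i ∈ Finset.range k, pm (gam k t).1 (i + 1) * U (gam k t) i := by
      refine Finset.sum_congr rfl fun i hi => ?_
      rw [Finset.mem_range] at hi
      rw [U_cov t (by omega)]
    rw [e1]
    refine (Finset.sum_subset (Finset.range_subset_range.2 hk) ?_).symm
    intro i _ hi
    rw [Finset.mem_range, not_lt] at hi
    rw [pm_zero_of_ge _ (by omega), zero_mul]
  rw [e]
  simp only [Finset.sum_range_succ, Finset.sum_range_zero, zero_add, one_add_one_eq_two,
    (by norm_num : 2 + 1 = 3), cov]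
  ring

theorem pair_cov_X₂ (t : ℝ) : pair (cov k t) (X₂ k) = Real.sin (3 * th t) := by
  rw [pair_X₂, U_cov t (Nat.zero_le k), ← F_gam k t]
  rfl

theorem gam_isGeodesic (hk : 3 ≤ k) : IsGeodesic (gam k) := by
  refine ⟨cov k, fun t => (gam_deriv k t).differentiableAt,
    fun t => (cov_deriv hk t).differentiableAt, fun t => ?_, fun t w => ?_, fun t w => ?_⟩
  · rw [ham, pair_cov_X₁ hk, pair_cov_X₂]
    have := Real.cos_sq_add_sin_sq (3 * th t)
    linarith
  · rw [fderiv_ham_p, (gam_deriv k t).deriv, pair_cov_X₁ hk, pair_cov_X₂]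
    simp only [pair_eq, U_add, U_smul, Prod.fst_add, Prod.smul_fst, smul_eq_mul, mul_add,
      Finset.sum_add_distrib, Finset.mul_sum]
    have e1 : ∀ v : Jet k, ∀ c : ℝ, ∑ i ∈ Finset.range (k + 1), U w i * (c * U v i) =
        ∑ i ∈ Finset.range (k + 1), c * (U w i * U v i) := by
      intro v c
      refine Finset.sum_congr rfl fun i _ => by ring
    rw [e1, e1]
    ring
  · rw [fderiv_ham_q, (cov_deriv hk t).deriv, pair_cov_X₁ hk, pair_eq]
    have e0 : ∀ i ≤ k, U ((0, fun j : Fin (k + 1) => -(Real.cos (3 * th t) *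
        pm (gam k t).1 (k - j + 1))) : Jet k) i = -(Real.cos (3 * th t) * pm (gam k t).1 (i + 1)) := by
      intro i hi
      rw [U_of_le _ hi]
      show -(Real.cos (3 * th t) * pm (gam k t).1 (k - (k - i) + 1)) = _
      rw [show k - (k - i) = i by omega]
    rw [zero_mul, zero_add, Finset.sum_range_succ, e0 k le_rfl, pm_zero_of_ge _ (by omega : 4 ≤ k + 1)]
    rw [mul_zero, neg_zero, zero_mul, add_zero, Finset.mul_sum, ← Finset.sum_neg_distrib]
    refine Finset.sum_congr rfl fun i hi => ?_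
    rw [Finset.mem_range] at hi
    rw [e0 i (by omega), U_cov t (by omega)]
    ring

end Pool.Agent.R731.EO
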