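import Pool.Agent.R731.EO.Curves

/-! Curves with given controls, elementary moves, and the resulting distance bound. -/

set_option autoImplicit false

open MeasureTheory Set Filter Topology

namespace Pool.Agent.R731.EO

variable {k : ℕ}

theorem continuous_X₁ : Continuous (X₁ : Jet k → Jet k) := by
  unfold X₁
  refine continuous_const.prodMk (continuous_pi fun j => ?_)
  by_cases h : (j : ℕ) < k
  · simp only [h, dite_true]
    exact (continuous_apply _).comp continuous_snd
  · simp only [h, dite_false]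
    exact continuous_const

/-- the `U`-coordinates of the curve with controls `a`, `b` starting at `p` -/
noncomputable def W (a b : ℝ → ℝ) (p : Jet k) : ℕ → ℝ → ℝ
  | 0, t => U p 0 + ∫ s in (0 : ℝ)..t, b s
  | (i + 1), t => U p (i + 1) + ∫ s in (0 : ℝ)..t, a s * W a b p i s

/-- the curve with controls `a`, `b` starting at `p` -/
noncomputable def curve (a b : ℝ → ℝ) (p : Jet k) (t : ℝ) : Jet k :=
  (p.1 + ∫ s in (0 : ℝ)..t, a s, fun j => W a b p (k - j) t)

theorem W_continuous {a b : ℝ → ℝ} (ha : Continuous a) (hb : Continuous b) (p : Jet k) (i : ℕ) :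
    Continuous (W a b p i) := by
  induction i with
  | zero =>
    have : W a b p 0 = fun t => U p 0 + ∫ s in (0 : ℝ)..t, b s := by funext t; rfl
    rw [this]
    exact continuous_const.add (intervalIntegral.continuous_primitive
      (fun _ _ => hb.intervalIntegrable _ _) 0)
  | succ i ih =>
    have : W a b p (i + 1) = fun t => U p (i + 1) + ∫ s in (0 : ℝ)..t, a s * W a b p i s := by
      funext t; rfl
    rw [this]
    exact continuous_const.add (intervalIntegral.continuous_primitive
      (fun _ _ => (ha.mul ih).intervalIntegrable _ _) 0)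

theorem hasDerivAt_primitive {f : ℝ → ℝ} (hf : Continuous f) (c t : ℝ) :
    HasDerivAt (fun t => c + ∫ s in (0 : ℝ)..t, f s) (f t) t :=
  (hf.integral_hasStrictDerivAt 0 t).hasDerivAt.const_add c

theorem U_curve (a b : ℝ → ℝ) (p : Jet k) (t : ℝ) {i : ℕ} (hi : i ≤ k) :
    U (curve a b p t) i = W a b p i t := by
  rw [U_of_le _ hi]
  show W a b p (k - (k - i)) t = _
  congr 1
  omega

theorem curve_zero (a b : ℝ → ℝ) (p : Jet k) : curve a b p 0 = p := by
  refine jet_ext (by simp [curve]) fun i hi => ?_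
  rw [U_curve _ _ _ _ hi]
  rcases i with _ | i <;> simp [W]

theorem curve_deriv {a b : ℝ → ℝ} (ha : Continuous a) (hb : Continuous b) (p : Jet k) (t : ℝ) :
    HasDerivAt (curve a b p) (a t • X₁ (curve a b p t) + b t • X₂ k) t := by
  refine of_comp_deriv ?_ ?_ fun i hi => ?_
  · exact hasDerivAt_primitive ha _ _
  · simp_rw [U_curve _ _ _ _ (Nat.zero_le k)]
    exact hasDerivAt_primitive hb _ _
  · simp_rw [U_curve _ _ _ _ hi]
    rw [U_curve _ _ _ _ (by omega : i ≤ k)]
    exact hasDerivAt_primitive (ha.mul (W_continuous ha hb p i)) _ _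

theorem continuous_of_hasDerivAt {E : Type*} [NormedAddCommGroup E] [NormedSpace ℝ E]
    {c c' : ℝ → E} (h : ∀ t, HasDerivAt c (c' t) t) : Continuous c :=
  continuous_iff_continuousAt.2 fun t => (h t).continuousAt

/-- smooth horizontal curves -/
theorem isHorizontal_of_deriv {a b : ℝ → ℝ} (ha : Continuous a) (hb : Continuous b)
    {c : ℝ → Jet k} (h : ∀ t, HasDerivAt c (a t • X₁ (c t) + b t • X₂ k) t) (T : ℝ) :
    IsHorizontal T c := by
  have hc := continuous_of_hasDerivAt h
  refine ⟨ContDiffOn.absolutelyContinuousOnInterval ?_,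
    Eventually.of_forall fun t _ => ⟨a t, b t, h t⟩⟩
  refine ContDiff.contDiffOn ?_
  rw [contDiff_one_iff_deriv]
  refine ⟨fun t => (h t).differentiableAt, ?_⟩
  have : deriv c = fun t => a t • X₁ (c t) + b t • X₂ k := by
    funext t; exact (h t).deriv
  rw [this]
  exact (ha.smul (continuous_X₁.comp hc)).add (hb.smul continuous_const)

theorem length_of_deriv {a b : ℝ → ℝ} {c : ℝ → Jet k}
    (h : ∀ t, HasDerivAt c (a t • X₁ (c t) + b t • X₂ k) t) (T : ℝ) :
    length T c = ∫ t in (0 : ℝ)..T, √(a t ^ 2 + b t ^ 2) := by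
  unfold length
  congr 1
  funext t
  rw [(h t).deriv, hnorm_frame]

theorem const_of_deriv_zero {f : ℝ → ℝ} (h : ∀ t, HasDerivAt f 0 t) (s t : ℝ) : f s = f t :=
  is_const_of_deriv_eq_zero (fun t => (h t).differentiableAt) (fun t => (h t).deriv) s t

/-- horizontal move in the `x`-direction: the `Θ_j` are preserved -/
theorem move_h (p : Jet k) (x' : ℝ) : ∃ q : Jet k, q.1 = x' ∧
    (∀ j ≤ k, Theta q j = Theta p j) ∧ Reach p q |x' - p.1| := by
  have ha : Continuous fun _ : ℝ => x' - p.1 := continuous_const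
  have hb : Continuous fun _ : ℝ => (0 : ℝ) := continuous_const
  have hd := curve_deriv ha hb p
  refine ⟨curve (fun _ => x' - p.1) (fun _ => 0) p 1, ?_, ?_, ?_⟩
  · simp [curve]
  · intro j hj
    have h1 : ∀ t, HasDerivAt (fun t => Theta (curve (fun _ => x' - p.1) (fun _ => 0) p t) j)
        0 t := by
      intro t
      simpa using Theta_deriv (hd t) hj
    have := const_of_deriv_zero h1 1 0
    simpa [curve_zero] using this
  · refine ⟨1, curve (fun _ => x' - p.1) (fun _ => 0) p, zero_le_one,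
      isHorizontal_of_deriv ha hb hd 1, curve_zero _ _ _, rfl, ?_⟩
    rw [length_of_deriv hd]
    simp [Real.sqrt_sq_eq_abs]

/-- vertical move -/
theorem move_v (p : Jet k) (m : ℝ) : ∃ q : Jet k, q.1 = p.1 ∧
    (∀ j ≤ k, Theta q j = Theta p j + p.1 ^ j / j.factorial * m) ∧ Reach p q |m| := by
  have ha : Continuous fun _ : ℝ => (0 : ℝ) := continuous_const
  have hb : Continuous fun _ : ℝ => m := continuous_const
  have hd := curve_deriv ha hb p
  have hx : ∀ t, (curve (fun _ => (0 : ℝ)) (fun _ => m) p t).1 = p.1 := fun t => by simp [curve]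
  refine ⟨curve (fun _ => 0) (fun _ => m) p 1, hx 1, ?_, ?_⟩
  · intro j hj
    have h1 : ∀ t, HasDerivAt (fun t => Theta (curve (fun _ => (0 : ℝ)) (fun _ => m) p t) j -
        t * (p.1 ^ j / j.factorial * m)) 0 t := by
      intro t
      have e1 := Theta_deriv (hd t) hj
      rw [hx t] at e1
      have e2 := (hasDerivAt_id t).mul_const (p.1 ^ j / j.factorial * m)
      refine (e1.sub e2).congr_deriv ?_
      ring
    have := const_of_deriv_zero h1 1 0
    simp only [curve_zero] at this
    linarith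
  · refine ⟨1, curve (fun _ => 0) (fun _ => m) p, zero_le_one,
      isHorizontal_of_deriv ha hb hd 1, curve_zero _ _ _, rfl, ?_⟩
    rw [length_of_deriv hd]
    simp [Real.sqrt_sq_eq_abs]

theorem chain (ξ m : ℕ → ℝ) (p : Jet k) (n : ℕ) : ∃ q : Jet k, q.1 = ξ n ∧
    (∀ j ≤ k, Theta q j = Theta p j + ∑ i ∈ Finset.range n, ξ i ^ j / j.factorial * m i) ∧
    Reach p q (|ξ 0 - p.1| + ∑ i ∈ Finset.range n, (|m i| + |ξ (i + 1) - ξ i|)) := by
  induction n with
  | zero =>
    obtain ⟨q, h1, h2, h3⟩ := move_h p (ξ 0)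
    exact ⟨q, h1, fun j hj => by simp [h2 j hj], by simpa using h3⟩
  | succ n ih =>
    obtain ⟨q, h1, h2, h3⟩ := ih
    obtain ⟨r, r1, r2, r3⟩ := move_v q (m n)
    obtain ⟨s, s1, s2, s3⟩ := move_h r (ξ (n + 1))
    refine ⟨s, s1, fun j hj => ?_, ?_⟩
    · rw [s2 j hj, r2 j hj, h2 j hj, h1, Finset.sum_range_succ]
      ring
    · have := (h3.trans r3).trans s3
      rw [r1, h1] at this
      rw [Finset.sum_range_succ]
      convert this using 1
      ring

/-- The matrix of the moments of the nodes `1, …, k + 1`. -/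
noncomputable def VM (k : ℕ) : Matrix (Fin (k + 1)) (Fin (k + 1)) ℝ :=
  Matrix.vandermonde fun i => ((i : ℕ) : ℝ) + 1

theorem VM_det (k : ℕ) : IsUnit (VM k).det := by
  rw [isUnit_iff_ne_zero, VM, Matrix.det_vandermonde_ne_zero_iff]
  intro i j h
  ext
  have : ((i : ℕ) : ℝ) = (j : ℕ) := by simpa using h
  exact_mod_cast this

/-- A constant depending only on `k`. -/
noncomputable def CV (k : ℕ) : ℝ := k.factorial * ∑ i, ∑ j, |(VM k)⁻¹ j i|

theorem CV_nonneg (k : ℕ) : 0 ≤ CV k := by unfold CV; positivity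

/-- Distance bound for points with the same `u_k`-coordinate. -/
theorem reach_bound (p q : Jet k) {D R : ℝ} (hR : 1 ≤ R) (hp : |p.1| ≤ 1) (hq : |q.1| ≤ 1)
    (h0 : Theta q 0 = Theta p 0) (hD : ∀ j ≤ k, |Theta q j - Theta p j| ≤ D) :
    ∃ L, Reach p q L ∧ L ≤ (2 * k + 2) * R + 2 + CV k * (D / R) := by
  have hD0 : 0 ≤ D := (abs_nonneg _).trans (hD 0 (Nat.zero_le k))
  have hR0 : 0 < R := by linarith
  set r : Fin (k + 1) → ℝ := fun j => (j : ℕ).factorial * (Theta q j - Theta p j) / R ^ (j : ℕ)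
    with hr
  have hrb : ∀ j, |r j| ≤ k.factorial * (D / R) := by
    intro j
    have hjk : (j : ℕ) ≤ k := by omega
    have e1 : |r j| = (j : ℕ).factorial * (|Theta q j - Theta p j| / R ^ (j : ℕ)) := by
      rw [hr]
      simp only
      rw [abs_div, abs_mul, Nat.abs_cast, abs_of_pos (pow_pos hR0 _)]
      ring
    rw [e1]
    have e2 : ((j : ℕ).factorial : ℝ) ≤ k.factorial := by exact_mod_cast Nat.factorial_le hjk
    rcases Nat.eq_zero_or_pos (j : ℕ) with hj | hj
    · rw [hj, h0]
      simp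
      positivity
    · have e3 : |Theta q j - Theta p j| / R ^ (j : ℕ) ≤ D / R := by
        have : R ≤ R ^ (j : ℕ) := by
          calc R = R ^ 1 := (pow_one R).symm
            _ ≤ R ^ (j : ℕ) := pow_le_pow_right₀ hR hj
        gcongr
        exact hD j hjk
      exact mul_le_mul e2 e3 (by positivity) (by positivity)
  set mF : Fin (k + 1) → ℝ := Matrix.vecMul r (VM k)⁻¹ with hmF
  have hmV : Matrix.vecMul mF (VM k) = r := by
    rw [hmF, Matrix.vecMul_vecMul, Matrix.nonsing_inv_mul _ (VM_det k), Matrix.vecMul_one]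
  set m : ℕ → ℝ := fun i => if h : i < k + 1 then mF ⟨i, h⟩ else 0 with hm
  set ξ : ℕ → ℝ := fun i => if i < k + 1 then R * (i + 1) else q.1 with hξ
  obtain ⟨s, s1, s2, s3⟩ := chain ξ m p (k + 1)
  have hs1 : s.1 = q.1 := by rw [s1]; simp [hξ]
  have hsq : s = q := by
    refine eq_of_Theta hs1 fun j hj => ?_
    rw [s2 j hj]
    have e1 : ∑ i ∈ Finset.range (k + 1), ξ i ^ j / j.factorial * m i =
        R ^ j / j.factorial * ∑ i : Fin (k + 1), mF i * (((i : ℕ) : ℝ) + 1) ^ j := by
      rw [← Fin.sum_univ_eq_sum_range (fun i => ξ i ^ j / j.factorial * m i), Finset.mul_sum]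
      refine Finset.sum_congr rfl fun i _ => ?_
      simp only [hξ, hm, i.2, if_true, dite_true, Fin.eta]
      rw [mul_pow]
      ring
    have e2 : ∑ i : Fin (k + 1), mF i * (((i : ℕ) : ℝ) + 1) ^ j = r ⟨j, by omega⟩ := by
      rw [← hmV]
      simp [Matrix.vecMul, dotProduct, VM, Matrix.vandermonde_apply]
    rw [e1, e2, hr]
    simp only
    have : (j.factorial : ℝ) ≠ 0 := by positivity
    field_simp
    ring
  rw [hsq] at s3
  refine ⟨_, s3, ?_⟩
  rw [Finset.sum_add_distrib]
  have b1 : ∑ i ∈ Finset.range (k + 1), |m i| ≤ CV k * (D / R) := by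
    rw [← Fin.sum_univ_eq_sum_range (fun i => |m i|)]
    have : ∀ i : Fin (k + 1), |m i| ≤ ∑ j, k.factorial * (D / R) * |(VM k)⁻¹ j i| := by
      intro i
      simp only [hm, i.2, dite_true, Fin.eta, hmF, Matrix.vecMul, dotProduct]
      refine (Finset.abs_sum_le_sum_abs _ _).trans (Finset.sum_le_sum fun j _ => ?_)
      rw [abs_mul]
      exact mul_le_mul_of_nonneg_right (hrb j) (abs_nonneg _)
    refine (Finset.sum_le_sum fun i _ => this i).trans (le_of_eq ?_)
    simp_rw [← Finset.mul_sum]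
    unfold CV
    ring
  have b2 : ∑ i ∈ Finset.range (k + 1), |ξ (i + 1) - ξ i| ≤ k * R + (1 + R * (k + 1)) := by
    rw [Finset.sum_range_succ]
    refine add_le_add ?_ ?_
    · have : ∀ i ∈ Finset.range k, |ξ (i + 1) - ξ i| = R := by
        intro i hi
        rw [Finset.mem_range] at hi
        simp only [hξ, show i + 1 < k + 1 by omega, show i < k + 1 by omega, if_true]
        push_cast
        rw [show R * ((i : ℝ) + 1 + 1) - R * (i + 1) = R by ring, abs_of_pos hR0]
      rw [Finset.sum_congr rfl this]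
      simp
    · simp only [hξ, lt_irrefl, if_false, show k < k + 1 by omega, if_true]
      have : |q.1 - R * ((k : ℝ) + 1)| ≤ |q.1| + |R * ((k : ℝ) + 1)| := abs_sub _ _
      rw [abs_of_nonneg (by positivity : 0 ≤ R * ((k : ℝ) + 1))] at this
      linarith
  have b3 : |ξ 0 - p.1| ≤ R + 1 := by
    have e : ξ 0 = R := by simp [hξ]
    rw [e]
    have : |R - p.1| ≤ |R| + |p.1| := abs_sub _ _
    rw [abs_of_pos hR0] at this
    linarith
  linarith

end Pool.Agent.R731.EO
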